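import Pool.Agent.BC78.BK.R1

/-! Products of word functions over classes of letters. -/

namespace Pool.Agent.BC78.BK

open Pool.Agent.H25

variable {α ι : Type} {K : Type*} [Field K]

/-- the value of a function of words on a product of labelled Lie monomials -/
def valL : List (LT α) → (List α → K) → K
  | [], φ => φ []
  | L :: Ls, φ => L.val (fun p => valL Ls (fun q => φ (p ++ q)))

lemma leaves_ne_nil (L : LT α) : L.leaves ≠ [] := by
  induction L with
  | leaf x => simp [LT.leaves]
  | node a b iha ihb => simp [LT.leaves, iha]

lemma val_node_comm {φ : List α → K} (a b : LT α)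
    (h : ∀ u v p q : List α, p.Perm a.leaves → q.Perm b.leaves → φ (u ++ p ++ q ++ v) = φ (u ++ q ++ p ++ v))
    (u v : List α) : (LT.node a b).val (fun w => φ (u ++ w ++ v)) = 0 := by
  rw [LT.val, val_val b a]
  rw [← val_sub]
  rw [val_congr a (χ := fun _ => 0), val_zero]
  intro p hp
  rw [← val_sub, val_congr b (χ := fun _ => 0), val_zero]
  intro q hq
  have := h u v p q hp hq
  simp only [List.append_assoc] at this ⊢
  rw [this, sub_self]

/-- a labelled tree with leaves in two commuting classes has value zero -/
theorem two_class {κ : α → ι} {φ : List α → K}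
    (h : ∀ u p q v : List α, (∀ x ∈ p, ∀ y ∈ q, κ x ≠ κ y) → φ (u ++ p ++ q ++ v) = φ (u ++ q ++ p ++ v)) :
    ∀ (L : LT α), (∃ x ∈ L.leaves, ∃ y ∈ L.leaves, κ x ≠ κ y) →
      ∀ u v : List α, L.val (fun w => φ (u ++ w ++ v)) = 0
  | LT.leaf x, hx, u, v => by
    obtain ⟨y, hy, z, hz, hne⟩ := hx
    simp only [LT.leaves, List.mem_singleton] at hy hz
    subst hy; subst hz
    exact absurd rfl hne
  | LT.node a b, hx, u, v => by
    by_cases ha : ∃ x ∈ a.leaves, ∃ y ∈ a.leaves, κ x ≠ κ y
    · refine clade_zero (C := a) (LT.Cl.left b (LT.Cl.refl a)) (fun u' v' => ?_)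
      have := two_class h a ha (u ++ u') (v' ++ v)
      simpa only [List.append_assoc] using this
    by_cases hb : ∃ x ∈ b.leaves, ∃ y ∈ b.leaves, κ x ≠ κ y
    · refine clade_zero (C := b) (LT.Cl.right a (LT.Cl.refl b)) (fun u' v' => ?_)
      have := two_class h b hb (u ++ u') (v' ++ v)
      simpa only [List.append_assoc] using this
    push Not at ha hb
    refine val_node_comm a b (fun u v p q hp hq => h u p q v ?_) u v
    intro x hxp y hyq hxy
    have hxa : x ∈ a.leaves := hp.mem_iff.1 hxp
    have hyb : y ∈ b.leaves := hq.mem_iff.1 hyq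
    obtain ⟨s, hs, t, ht, hne⟩ := hx
    simp only [LT.leaves, List.mem_append] at hs ht
    apply hne
    have key : ∀ s, s ∈ a.leaves ∨ s ∈ b.leaves → κ s = κ x := by
      rintro s (hs | hs)
      · exact ha s hs x hxa
      · rw [hxy]; exact hb s hs y hyb
    rw [key s hs, key t ht]

section prod
variable [DecidableEq ι]

/-- product over the classes of functions of the restricted words -/
def prodφ (κ : α → ι) (I : Finset ι) (g : ι → List α → K) (w : List α) : K :=
  ∏ i ∈ I, g i (w.filter (fun x => κ x = i))

lemma prodφ_comm (κ : α → ι) (I : Finset ι) (g : ι → List α → K) (u p q v : List α)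
    (h : ∀ x ∈ p, ∀ y ∈ q, κ x ≠ κ y) :
    prodφ κ I g (u ++ p ++ q ++ v) = prodφ κ I g (u ++ q ++ p ++ v) := by
  unfold prodφ
  refine Finset.prod_congr rfl (fun i _ => ?_)
  congr 1
  simp only [List.filter_append]
  congr 1
  rw [List.append_assoc, List.append_assoc]
  congr 1
  by_cases hp : p.filter (fun x => κ x = i) = []
  · rw [hp, List.nil_append, List.append_nil]
  · by_cases hq : q.filter (fun x => κ x = i) = []
    · rw [hq, List.nil_append, List.append_nil]
    · exfalso
      obtain ⟨x, hx⟩ := List.exists_mem_of_ne_nil _ hp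
      obtain ⟨y, hy⟩ := List.exists_mem_of_ne_nil _ hq
      simp only [List.mem_filter, decide_eq_true_eq] at hx hy
      exact h x hx.1 y hy.1 (by rw [hx.2, hy.2])

theorem prodφ_two_class (κ : α → ι) (I : Finset ι) (g : ι → List α → K) (L : LT α)
    (hL : ∃ x ∈ L.leaves, ∃ y ∈ L.leaves, κ x ≠ κ y) (u v : List α) :
    L.val (fun w => prodφ κ I g (u ++ w ++ v)) = 0 :=
  two_class (κ := κ) (fun u p q v h => prodφ_comm κ I g u p q v h) L hL u v

lemma valL_congr (Ls : List (LT α)) {φ χ : List α → K}
    (h : ∀ w, w.Perm (Ls.flatMap LT.leaves) → φ w = χ w) : valL Ls φ = valL Ls χ := by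
  induction Ls generalizing φ χ with
  | nil => exact h [] (List.Perm.refl _)
  | cons L Ls ih =>
    rw [valL, valL]
    refine val_congr L (fun p hp => ih (fun q hq => h _ ?_))
    rw [List.flatMap_cons]
    exact hp.append hq

lemma valL_zero (Ls : List (LT α)) : valL Ls (fun _ => (0 : K)) = 0 := by
  induction Ls with
  | nil => rfl
  | cons L Ls ih => rw [valL]; simp only [ih, val_zero]

lemma valL_add (Ls : List (LT α)) (φ χ : List α → K) :
    valL Ls (fun w => φ w + χ w) = valL Ls φ + valL Ls χ := by
  induction Ls generalizing φ χ with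
  | nil => rfl
  | cons L Ls ih => simp only [valL, ih, val_add]

lemma valL_mul_left (Ls : List (LT α)) (c : K) (φ : List α → K) :
    valL Ls (fun w => c * φ w) = c * valL Ls φ := by
  induction Ls generalizing φ with
  | nil => rfl
  | cons L Ls ih => simp only [valL, ih, val_mul_left]

lemma valL_mul_right (Ls : List (LT α)) (c : K) (φ : List α → K) :
    valL Ls (fun w => φ w * c) = valL Ls φ * c := by
  simp only [mul_comm _ c]; exact valL_mul_left Ls c φ

/-- Fubini for lists -/
lemma val_valL {β : Type} (L : LT β) (Ls : List (LT α)) (φ : List β → List α → K) :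
    L.val (fun p => valL Ls (fun q => φ p q)) = valL Ls (fun q => L.val (fun p => φ p q)) := by
  induction Ls generalizing φ with
  | nil => rfl
  | cons M Ls ih => simp only [valL]; rw [val_val]; simp only [ih]

/-- a tree of a list with leaves in two classes: value zero -/
theorem valL_zero_of_mem {Ls : List (LT α)} {L : LT α} (hL : L ∈ Ls) {φ : List α → K}
    (h : ∀ u v, L.val (fun w => φ (u ++ w ++ v)) = 0) : valL Ls φ = 0 := by
  induction Ls generalizing φ with
  | nil => simp at hL
  | cons M Ls ih =>
    rw [valL]
    rcases List.mem_cons.1 hL with rfl | hL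
    · rw [val_valL]
      rw [valL_congr Ls (χ := fun _ => 0), valL_zero]
      intro q _
      simpa using h [] q
    · rw [val_congr M (χ := fun _ => 0), val_zero]
      intro p _
      exact ih hL (fun u v => by simpa only [List.append_assoc] using h (p ++ u) v)

/-- the value of a list of trees, each in one class, is the product over the classes -/
theorem valL_prodφ (κ : α → ι) (I : Finset ι) (c : LT α → ι) :
    ∀ (Ls : List (LT α)) (g : ι → List α → K), (∀ L ∈ Ls, ∀ x ∈ L.leaves, κ x = c L) →
      (∀ L ∈ Ls, c L ∈ I) →
      valL Ls (prodφ κ I g) = ∏ i ∈ I, valL (Ls.filter (fun L => c L = i)) (g i)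
  | [], g, _, _ => by simp [valL, prodφ]
  | L :: Ls, g, h, hI => by
    have hL : ∀ x ∈ L.leaves, κ x = c L := h L List.mem_cons_self
    have hLI : c L ∈ I := hI L List.mem_cons_self
    have h1 : ∀ p : List α, p.Perm L.leaves →
        valL Ls (fun q => prodφ κ I g (p ++ q)) =
          (∏ i ∈ I.erase (c L), valL (Ls.filter (fun L => c L = i)) (g i)) *
            valL (Ls.filter (fun M => c M = c L)) (fun q => g (c L) (p ++ q)) := by
      intro p hp
      have e : (fun q => prodφ κ I g (p ++ q)) =
          prodφ κ I (fun i w => if i = c L then g (c L) (p ++ w) else g i w) := by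
        funext q
        unfold prodφ
        refine Finset.prod_congr rfl (fun i _ => ?_)
        rw [List.filter_append]
        by_cases hi : i = c L
        · simp only [if_pos hi]
          rw [hi]
          congr 2
          rw [List.filter_eq_self]
          intro x hx
          simpa using hL x (hp.mem_iff.1 hx)
        · simp only [if_neg hi]
          congr 1
          have : p.filter (fun x => κ x = i) = [] := by
            rw [List.filter_eq_nil_iff]
            intro x hx
            simp only [decide_eq_true_eq]
            intro hxi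
            exact hi (by rw [← hxi]; exact hL x (hp.mem_iff.1 hx))
          rw [this, List.nil_append]
      rw [e, valL_prodφ κ I c Ls _ (fun M hM => h M (List.mem_cons_of_mem _ hM))
        (fun M hM => hI M (List.mem_cons_of_mem _ hM)), ← Finset.prod_erase_mul I _ hLI]
      congr 1
      · refine Finset.prod_congr rfl (fun i hi => ?_)
        have hi' : i ≠ c L := Finset.ne_of_mem_erase hi
        simp only [if_neg hi']
      · simp only [if_true]
    rw [valL, val_congr L h1, val_mul_left, ← Finset.prod_erase_mul I _ hLI]
    congr 1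
    · refine Finset.prod_congr rfl (fun i hi => ?_)
      have hi' : c L ≠ i := (Finset.ne_of_mem_erase hi).symm
      rw [List.filter_cons_of_neg (by simpa using hi')]
    · rw [List.filter_cons_of_pos (by simp), valL]

end prod

end Pool.Agent.BC78.BK
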